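import Pool.Agent.Q7.CF.Stm
import Pool.Agent.Q164.CJ.Clos2

/-!
# Project CF (helper7), job CLOS: over a finite extension every class is in the image of `1 - σ`.
Adapted by helper222 from the proof of helper164 for the project CJ.
-/

set_option autoImplicit false

open Polynomial Pool.Agent.Q7.CF
open Pool.Agent.Q7.CJ (Nr)
open Pool.Agent.Q164.CJ (KK norm_prod nr_sub exists_field)

namespace Pool.Agent.Q222.CF

section

variable (p r : ℕ) {M : Type} [Field M]

/-- the polynomial `u (D - u)^r` -/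
noncomputable def hq (D : M) : M[X] := X * (C D - X) ^ r

/-- the function `u (D - u)^r` -/
noncomputable def aq (D : M) : KK M := algebraMap M[X] (KK M) (hq r D)

/-- `T^p - u (D - u)^r` -/
noncomputable def fq (D : M) : M[X][X] := X ^ p - C (hq r D)

/-- the subring generated by `u` and `v` -/
abbrev AQ (D : M) : Type := AdjoinRoot (fq p r D)

/-- the field of fractions -/
abbrev EQ (D : M) : Type := AdjoinRoot (X ^ p - C (aq r D) : (KK M)[X])

theorem natDegree_hq (D : M) : (hq r D).natDegree = r + 1 := by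
  have h1 : (C D - X : M[X]).natDegree = 1 := by
    rw [← neg_sub, natDegree_neg, natDegree_X_sub_C]
  have h2 : (C D - X : M[X]) ≠ 0 := by
    intro h
    rw [h, natDegree_zero] at h1
    exact absurd h1 (by norm_num)
  rw [hq, natDegree_mul X_ne_zero (pow_ne_zero r h2), natDegree_X, natDegree_pow, h1]
  ring

theorem fq_monic [Fact p.Prime] (D : M) : (fq p r D).Monic :=
  monic_X_pow_sub_C _ (Fact.out (p := p.Prime)).ne_zero

theorem fq_map (D : M) : (fq p r D).map (algebraMap M[X] (KK M)) = X ^ p - C (aq r D) := by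
  unfold fq aq
  rw [Polynomial.map_sub, Polynomial.map_pow, map_X, map_C]

theorem irrK [Fact p.Prime] [Ok p r] (D : M) : Irreducible (X ^ p - C (aq r D) : (KK M)[X]) := by
  have hp := (Fact.out (p := p.Prime))
  have h1 : 1 ≤ r := Ok.h1 p
  have h2 : r + 2 ≤ p := Ok.h2
  refine X_pow_sub_C_irreducible_of_prime hp ?_
  intro b hb
  have hint : IsIntegral M[X] b := by
    refine IsIntegral.of_pow hp.pos ?_
    rw [hb]
    exact isIntegral_algebraMap
  obtain ⟨c, hc⟩ := IsIntegrallyClosed.isIntegral_iff.1 hint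
  rw [← hc, ← map_pow] at hb
  have h3 := IsFractionRing.injective M[X] (FractionRing M[X]) hb
  have h4 := congrArg natDegree h3
  rw [natDegree_pow, natDegree_hq] at h4
  have h5 : p ∣ r + 1 := ⟨_, h4.symm⟩
  have h6 := Nat.le_of_dvd (by omega) h5
  omega

/-- the inclusion -/
noncomputable def inc (D : M) : AQ p r D →+* EQ p r D :=
  AdjoinRoot.map (algebraMap M[X] (KK M)) (fq p r D) (X ^ p - C (aq r D)) (by rw [fq_map])

theorem inc_of (D : M) (g : M[X]) : inc p r D (AdjoinRoot.of (fq p r D) g) =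
    algebraMap (KK M) (EQ p r D) (algebraMap M[X] (KK M) g) := by
  unfold inc
  exact AdjoinRoot.map_of _ _ _ _ _

theorem inc_root (D : M) : inc p r D (AdjoinRoot.root _) = AdjoinRoot.root _ := by
  unfold inc
  exact AdjoinRoot.map_root _ _ _ _

theorem inc_mk (D : M) (q : M[X][X]) : inc p r D (AdjoinRoot.mk (fq p r D) q) =
    AdjoinRoot.mk (X ^ p - C (aq r D) : (KK M)[X]) (q.map (algebraMap M[X] (KK M))) := by
  have h : (inc p r D).comp (AdjoinRoot.mk (fq p r D)) =
      (AdjoinRoot.mk (X ^ p - C (aq r D) : (KK M)[X])).comp (mapRingHom (algebraMap M[X] (KK M))) := by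
    apply Polynomial.ringHom_ext
    · intro a
      simp only [RingHom.comp_apply, coe_mapRingHom, map_C]
      rw [AdjoinRoot.mk_C, inc_of, AdjoinRoot.mk_C]
      rfl
    · simp only [RingHom.comp_apply, coe_mapRingHom, map_X]
      rw [AdjoinRoot.mk_X, AdjoinRoot.mk_X]
      exact inc_root p r D
  exact congrArg (fun f => f q) (congrArg DFunLike.coe h)

theorem inc_inj [Fact p.Prime] (D : M) : Function.Injective (inc p r D) := by
  rw [injective_iff_map_eq_zero]
  intro z hz
  obtain ⟨q, rfl⟩ := AdjoinRoot.mk_surjective z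
  rw [inc_mk, AdjoinRoot.mk_eq_zero, ← fq_map,
    Polynomial.map_dvd_map _ (IsFractionRing.injective M[X] (KK M)) (fq_monic p r D)] at hz
  rw [AdjoinRoot.mk_eq_zero]
  exact hz

/-- the conjugations -/
noncomputable def tau (D ζ : M) (h : ζ ^ p = 1) (i : ℕ) : EQ p r D →ₐ[KK M] EQ p r D :=
  AdjoinRoot.liftAlgHom (X ^ p - C (aq r D)) (Algebra.ofId (KK M) (EQ p r D))
    ((algebraMap M[X] (KK M) (C ζ) ^ i) • AdjoinRoot.root _) (by
      have h1 : (algebraMap M[X] (KK M) (C ζ) ^ i) ^ p = 1 := by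
        rw [← pow_mul, mul_comm, pow_mul, ← map_pow, ← C_pow, h, C_1, map_one, one_pow]
      rw [eval₂_sub, eval₂_X_pow, eval₂_C, _root_.smul_pow, h1, one_smul, root_X_pow_sub_C_pow, sub_eq_zero]
      rfl)

theorem tau_root (D ζ : M) (h : ζ ^ p = 1) (i : ℕ) :
    tau p r D ζ h i (AdjoinRoot.root _) = (algebraMap M[X] (KK M) (C ζ) ^ i) • AdjoinRoot.root _ :=
  AdjoinRoot.liftAlgHom_root _ _ _ _

theorem eval₂_fq {S : Type} [CommRing S] (i : M[X] →+* S) (a : S) (D : M) :
    (fq p r D).eval₂ i a = a ^ p - i (hq r D) := by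
  unfold fq
  rw [eval₂_sub, eval₂_X_pow, eval₂_C]

theorem root_pow (D : M) : (AdjoinRoot.root (fq p r D)) ^ p = AdjoinRoot.of (fq p r D) (hq r D) := by
  have h : AdjoinRoot.mk (fq p r D) (X ^ p - C (hq r D)) = 0 := by
    rw [AdjoinRoot.mk_eq_zero]
    exact dvd_rfl
  rw [map_sub, map_pow, AdjoinRoot.mk_X, AdjoinRoot.mk_C, sub_eq_zero] at h
  exact h

/-- the automorphism `v ↦ ζ^i v` -/
noncomputable def sA (D ζ : M) (h : ζ ^ p = 1) (i : ℕ) : AQ p r D →ₐ[M[X]] AQ p r D :=
  AdjoinRoot.liftAlgHom (fq p r D) (Algebra.ofId M[X] (AQ p r D))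
    (AdjoinRoot.of (fq p r D) (C (ζ ^ i)) * AdjoinRoot.root _) (by
    have h1 : AdjoinRoot.of (fq p r D) (C (ζ ^ i)) ^ p = 1 := by
      rw [← map_pow, ← C_pow, ← pow_mul, mul_comm, pow_mul, h, one_pow, map_one, map_one]
    rw [eval₂_fq, mul_pow, h1, one_mul, root_pow, sub_eq_zero]
    rfl)

theorem sA_root (D ζ : M) (h : ζ ^ p = 1) (i : ℕ) : sA p r D ζ h i (AdjoinRoot.root _) =
    AdjoinRoot.of (fq p r D) (C (ζ ^ i)) * AdjoinRoot.root _ :=
  AdjoinRoot.liftAlgHom_root _ _ _ _

theorem sA_of (D ζ : M) (h : ζ ^ p = 1) (i : ℕ) (g : M[X]) : sA p r D ζ h i (AdjoinRoot.of (fq p r D) g) =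
    AdjoinRoot.of (fq p r D) g :=
  (sA p r D ζ h i).commutes g

theorem tau_inc (D ζ : M) (h : ζ ^ p = 1) (i : ℕ) (b : AQ p r D) :
    tau p r D ζ h i (inc p r D b) = inc p r D (sA p r D ζ h i b) := by
  have h1 : ((tau p r D ζ h i : EQ p r D →+* EQ p r D).comp (inc p r D)) =
      (inc p r D).comp (sA p r D ζ h i : AQ p r D →+* AQ p r D) := by
    apply AdjoinRoot.ringHom_ext
    · apply RingHom.ext
      intro g
      change tau p r D ζ h i (inc p r D (AdjoinRoot.of (fq p r D) g)) =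
        inc p r D (sA p r D ζ h i (AdjoinRoot.of (fq p r D) g))
      rw [sA_of, inc_of, AlgHom.commutes]
    · change tau p r D ζ h i (inc p r D (AdjoinRoot.root _)) = inc p r D (sA p r D ζ h i (AdjoinRoot.root _))
      rw [sA_root, inc_root, tau_root, map_mul, inc_root, inc_of, Algebra.smul_def, C_pow]
      simp only [map_pow]
  exact congrArg (fun f => f b) (congrArg DFunLike.coe h1)

/-! ### The coordinate ring -/

theorem sg_uu (D ζ : M) (h : ζ ^ p = 1) : sg p r D ζ h (uu p r D) = uu p r D := by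
  refine Subtype.ext ?_
  rw [sg_val]
  change sF p D ζ h (XF p D ^ p) = XF p D ^ p
  rw [map_pow, sF_XF]

theorem sg_alg (D ζ : M) (h : ζ ^ p = 1) (a : M) : sg p r D ζ h (algebraMap M (BQ p r D) a) =
    algebraMap M (BQ p r D) a := by
  refine Subtype.ext ?_
  rw [sg_val]
  exact sF_of p D ζ h (C a)

theorem sg_vv (D ζ : M) (h : ζ ^ p = 1) : sg p r D ζ h (vv p r D) =
    algebraMap M (BQ p r D) (ζ ^ r) * vv p r D := by
  refine Subtype.ext ?_
  rw [sg_val]
  change sF p D ζ h (XF p D * YF p D ^ r) = algebraMap M (RF p D) (ζ ^ r) * (XF p D * YF p D ^ r)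
  rw [map_mul, map_pow, sF_XF, sF_YF, map_pow, mul_pow]
  ring

theorem sg_aeval (D ζ : M) (h : ζ ^ p = 1) (g : M[X]) : sg p r D ζ h (aeval (uu p r D) g) =
    aeval (uu p r D) g := by
  have h1 : (sg p r D ζ h).comp ((aeval (uu p r D) : M[X] →ₐ[M] BQ p r D) : M[X] →+* BQ p r D) =
      ((aeval (uu p r D) : M[X] →ₐ[M] BQ p r D) : M[X] →+* BQ p r D) := by
    apply Polynomial.ringHom_ext
    · intro a
      change sg p r D ζ h (aeval (uu p r D) (C a)) = aeval (uu p r D) (C a)
      rw [aeval_C, sg_alg]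
    · change sg p r D ζ h (aeval (uu p r D) X) = aeval (uu p r D) X
      rw [aeval_X, sg_uu]
  exact congrArg (fun f => f g) (congrArg DFunLike.coe h1)

/-- the homomorphism to the coordinate ring -/
noncomputable def th (D : M) : AQ p r D →+* BQ p r D :=
  AdjoinRoot.lift ((aeval (uu p r D) : M[X] →ₐ[M] BQ p r D) : M[X] →+* BQ p r D) (vv p r D) (by
    rw [eval₂_fq, vv_pow, sub_eq_zero]
    change _ = aeval (uu p r D) (X * (C D - X) ^ r)
    rw [map_mul, map_pow, map_sub, aeval_X, aeval_C, ← uu_add_ww]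
    congr 2
    ring)

theorem th_of (D : M) (g : M[X]) : th p r D (AdjoinRoot.of (fq p r D) g) = aeval (uu p r D) g := by
  unfold th
  rw [AdjoinRoot.lift_of]
  rfl

theorem th_root (D : M) : th p r D (AdjoinRoot.root _) = vv p r D := by
  unfold th
  exact AdjoinRoot.lift_root _

theorem th_sg (D ζ : M) (h : ζ ^ p = 1) (h' : (ζ ^ r) ^ p = 1) (i : ℕ) (b : AQ p r D) :
    th p r D (sA p r D (ζ ^ r) h' i b) = sgi p r D ζ h i (th p r D b) := by
  have h1 : (th p r D).comp (sA p r D (ζ ^ r) h' i : AQ p r D →+* AQ p r D) =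
      (sgi p r D ζ h i).comp (th p r D) := by
    apply AdjoinRoot.ringHom_ext
    · apply RingHom.ext
      intro g
      change th p r D (sA p r D (ζ ^ r) h' i (AdjoinRoot.of (fq p r D) g)) =
        sgi p r D ζ h i (th p r D (AdjoinRoot.of (fq p r D) g))
      unfold sgi
      rw [sA_of, th_of, sg_aeval]
    · change th p r D (sA p r D (ζ ^ r) h' i (AdjoinRoot.root _)) =
        sgi p r D ζ h i (th p r D (AdjoinRoot.root _))
      unfold sgi
      rw [sA_root, map_mul, th_of, th_root, sg_vv, aeval_C, ← pow_mul, ← pow_mul, mul_comm r i]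
  exact congrArg (fun f => f b) (congrArg DFunLike.coe h1)

/-- a norm from the field of fractions -/
theorem norm_repr [Fact p.Prime] [Ok p r] (D ζ : M) (h : ζ ^ p = 1) (hζ : IsPrimitiveRoot ζ p) (g : M[X])
    (hg : Nr p (aq r D) (algebraMap M[X] (KK M) g)) :
    ∃ a : M[X], a ≠ 0 ∧ ∃ b : BQ p r D,
      ∏ i ∈ Finset.range p, sgi p r D ζ h i b = aeval (uu p r D) (a ^ p * g) := by
  classical
  have hp := (Fact.out (p := p.Prime))
  have h1r : 1 ≤ r := Ok.h1 p
  have h2r : r + 2 ≤ p := Ok.h2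
  obtain ⟨t, ht⟩ := hg
  obtain ⟨q, rfl⟩ := AdjoinRoot.mk_surjective t
  obtain ⟨a, ha0, ha⟩ := IsLocalization.integerNormalization_spec (nonZeroDivisors M[X]) q
  have hη : IsPrimitiveRoot (ζ ^ r) p := by
    refine hζ.pow_of_coprime r ?_
    rw [Nat.coprime_comm, hp.coprime_iff_not_dvd]
    intro hd
    have := Nat.le_of_dvd (by omega) hd
    omega
  have hη1 : (ζ ^ r) ^ p = 1 := hη.pow_eq_one
  have hηK : IsPrimitiveRoot (algebraMap M[X] (KK M) (C (ζ ^ r))) p :=
    (hη.map_of_injective (f := C) C_injective).map_of_injective (IsFractionRing.injective M[X] (KK M))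
  have key : ∏ i ∈ Finset.range p, sA p r D (ζ ^ r) hη1 i (AdjoinRoot.mk (fq p r D)
      (IsLocalization.integerNormalization (nonZeroDivisors M[X]) q)) =
      AdjoinRoot.of (fq p r D) (a ^ p * g) := by
    apply inc_inj
    rw [map_prod, inc_of]
    have h1 : ∀ i ∈ Finset.range p, inc p r D (sA p r D (ζ ^ r) hη1 i (AdjoinRoot.mk (fq p r D)
        (IsLocalization.integerNormalization (nonZeroDivisors M[X]) q))) =
        tau p r D (ζ ^ r) hη1 i (inc p r D (AdjoinRoot.mk (fq p r D)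
        (IsLocalization.integerNormalization (nonZeroDivisors M[X]) q))) := by
      intro i _
      rw [tau_inc]
    rw [Finset.prod_congr rfl h1, ← norm_prod hηK (irrK p r D) (tau p r D (ζ ^ r) hη1)
      (tau_root p r D (ζ ^ r) hη1), inc_mk, ha]
    congr 1
    have h2 : AdjoinRoot.mk (X ^ p - C (aq r D) : (KK M)[X]) (a • q) =
        algebraMap (KK M) (EQ p r D) (algebraMap M[X] (KK M) a) * AdjoinRoot.mk _ q := by
      rw [← algebraMap_smul (KK M) a q, ← C_mul', map_mul, AdjoinRoot.mk_C]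
      rfl
    rw [h2, map_mul, ht, Algebra.norm_algebraMap, map_mul, map_pow]
    congr 2
    have h3 := (AdjoinRoot.powerBasis (X_pow_sub_C_ne_zero (Fact.out (p := p.Prime)).pos (aq r D))).finrank
    rw [AdjoinRoot.powerBasis_dim, natDegree_X_pow_sub_C] at h3
    exact h3
  refine ⟨a, nonZeroDivisors.ne_zero ha0, th p r D (AdjoinRoot.mk (fq p r D)
    (IsLocalization.integerNormalization (nonZeroDivisors M[X]) q)), ?_⟩
  rw [← th_of, ← key, map_prod]
  refine Finset.prod_congr rfl fun i _ => ?_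
  rw [th_sg p r D ζ h hη1]

/-- the norm of an ideal is a norm of the extension of the rational function field -/
theorem nr_prod [Fact p.Prime] [Ok p r] (hRS : Pool.Agent.Q7.CJ.S_RS) [CharZero M] {ζ : M}
    (hζ : IsPrimitiveRoot ζ p) {D : M}
    (s : Multiset M) (hs : ∀ y ∈ s, (∃ a : M, a ^ p = y) ∧ ∃ b : M, b ^ p = y + -D) :
    Nr p (aq r D) (algebraMap M[X] (KK M) (s.map (fun y => X - C y)).prod) := by
  have hp := (Fact.out (p := p.Prime))
  have h1r : 1 ≤ r := Ok.h1 p
  have h2r : r + 2 ≤ p := Ok.h2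
  have hp2 : p ≠ 2 := by omega
  have : Fact (p ≠ 2) := ⟨hp2⟩
  have hinj := IsFractionRing.injective M[X] (KK M)
  have : CharZero (KK M) := charZero_of_injective_algebraMap hinj
  have hζK : IsPrimitiveRoot (algebraMap M[X] (KK M) (C ζ)) p :=
    (hζ.map_of_injective (f := C) C_injective).map_of_injective hinj
  obtain ⟨_, h2, h3, h4, h5, _, h7, _, _, _⟩ := hRS p hp2 (KK M) _ hζK
  have hne : ∀ q : M[X], q ≠ 0 → algebraMap M[X] (KK M) q ≠ 0 := by
    intro q hq h
    apply hq
    apply hinj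
    rw [h, map_zero]
  have hX0 : algebraMap M[X] (KK M) X ≠ 0 := hne _ X_ne_zero
  have hXD0 : algebraMap M[X] (KK M) (X - C D) ≠ 0 := hne _ (X_sub_C_ne_zero D)
  have hDX : algebraMap M[X] (KK M) (C D - X) = algebraMap M[X] (KK M) (X - C D) * (-1) ^ p := by
    rw [(hp.odd_of_ne_two hp2).neg_one_pow, mul_neg_one, ← map_neg, neg_sub]
  have hDX0 : algebraMap M[X] (KK M) (C D - X) ≠ 0 := by
    rw [hDX]
    exact mul_ne_zero hXD0 (pow_ne_zero p (neg_ne_zero.2 one_ne_zero))
  have haa : aq r D = algebraMap M[X] (KK M) X * algebraMap M[X] (KK M) (C D - X) ^ r := by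
    unfold aq hq
    rw [map_mul, map_pow]
  have haa0 : aq r D ≠ 0 := by
    rw [haa]
    exact mul_ne_zero hX0 (pow_ne_zero r hDX0)
  have hlin : ∀ y : M, (∃ a : M, a ^ p = y) ∧ (∃ b : M, b ^ p = y + -D) →
      Nr p (aq r D) (algebraMap M[X] (KK M) (X - C y)) := by
    rintro y ⟨⟨a, ha⟩, b, hb⟩
    have hy0 : algebraMap M[X] (KK M) (X - C y) ≠ 0 := hne _ (X_sub_C_ne_zero y)
    have e1 : algebraMap M[X] (KK M) X - (algebraMap M[X] (KK M) (C a)) ^ p =
        algebraMap M[X] (KK M) (X - C y) := by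
      rw [← map_pow, ← C_pow, ha, map_sub]
    have e2 : algebraMap M[X] (KK M) (X - C D) - (algebraMap M[X] (KK M) (C b)) ^ p =
        algebraMap M[X] (KK M) (X - C y) := by
      rw [← map_pow, ← C_pow, hb, ← map_sub]
      congr 1
      rw [C_add, C_neg]
      ring
    have n1 : Nr p (algebraMap M[X] (KK M) X) (algebraMap M[X] (KK M) (X - C y)) := by
      rw [← e1]
      apply nr_sub p hRS hζK hX0
      rw [← sub_ne_zero, e1]
      exact hy0
    have n2 : Nr p (algebraMap M[X] (KK M) (X - C D)) (algebraMap M[X] (KK M) (X - C y)) := by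
      rw [← e2]
      apply nr_sub p hRS hζK hXD0
      rw [← sub_ne_zero, e2]
      exact hy0
    have n3 : Nr p (algebraMap M[X] (KK M) (C D - X)) (algebraMap M[X] (KK M) (X - C y)) := by
      have n4 := h5 _ _ (-1) 1 hXD0 hy0 (neg_ne_zero.2 one_ne_zero) one_ne_zero n2
      rw [one_pow, mul_one, ← hDX] at n4
      exact n4
    have n5 : Nr p (algebraMap M[X] (KK M) (C D - X) ^ r) (algebraMap M[X] (KK M) (X - C y)) := by
      have n6 := h4 _ _ hDX0 hy0 n3 (r : ℤ) 1
      rw [zpow_natCast, zpow_one] at n6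
      exact n6
    rw [haa]
    exact h3 _ _ _ hX0 (pow_ne_zero r hDX0) hy0 n1 n5
  induction s using Multiset.induction_on with
  | empty =>
    rw [Multiset.map_zero, Multiset.prod_zero, map_one]
    exact (h7 _ haa0).2.1
  | cons y s ih =>
    rw [Multiset.map_cons, Multiset.prod_cons, map_mul]
    have hy0 : algebraMap M[X] (KK M) (X - C y) ≠ 0 := hne _ (X_sub_C_ne_zero y)
    have hs0 : algebraMap M[X] (KK M) (s.map (fun y => X - C y)).prod ≠ 0 := by
      apply hne
      exact (monic_multiset_prod_of_monic s _ (fun y _ => monic_X_sub_C y)).ne_zero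
    exact h2 _ _ _ haa0 hy0 hs0 (hlin y (hs y (Multiset.mem_cons_self y s)))
      (ih (fun z hz => hs z (Multiset.mem_cons_of_mem hz)))

/-- the subring of the polynomials in `u` -/
theorem aeval_inj [Fact p.Prime] (D : M) : Function.Injective (aeval (R := M) (uu p r D)) := by
  have hp := (Fact.out (p := p.Prime))
  rw [injective_iff_map_eq_zero]
  intro a ha
  have h1 : ((aeval (uu p r D) a : BQ p r D) : RF p D) = AdjoinRoot.of (fF p D) (expand M p a) := by
    have h2 : ((BQ p r D).val : BQ p r D →+* RF p D).comp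
        ((aeval (uu p r D) : M[X] →ₐ[M] BQ p r D) : M[X] →+* BQ p r D) =
        (AdjoinRoot.of (fF p D)).comp ((expand M p : M[X] →ₐ[M] M[X]) : M[X] →+* M[X]) := by
      apply Polynomial.ringHom_ext
      · intro c
        change ((aeval (uu p r D) (C c) : BQ p r D) : RF p D) = AdjoinRoot.of (fF p D) (expand M p (C c))
        rw [aeval_C, expand_C]
        rfl
      · change ((aeval (uu p r D) X : BQ p r D) : RF p D) = AdjoinRoot.of (fF p D) (expand M p X)
        rw [aeval_X, expand_X, map_pow]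
        rfl
    exact congrArg (fun f => f a) (congrArg DFunLike.coe h2)
  rw [ha] at h1
  have h3 : AdjoinRoot.mk (fF p D) (C (expand M p a)) = 0 := by
    rw [AdjoinRoot.mk_C, ← h1]
    rfl
  rw [AdjoinRoot.mk_eq_zero] at h3
  have h4 : C (expand M p a) = 0 := by
    by_contra h5
    have h6 := natDegree_le_of_dvd h3 h5
    rw [natDegree_C, fF_natDegree] at h6
    exact absurd h6 (by have := hp.pos; omega)
  rw [C_eq_zero, expand_eq_zero hp.pos] at h4
  exact h4

theorem bc_aeval {L : Type} [Field L] (φ : L →+* M) (D : L) (g : L[X]) :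
    bc p r φ D (φ D) rfl (aeval (uu p r D) g) = aeval (uu p r (φ D)) (g.map φ) := by
  have h1 : (bc p r φ D (φ D) rfl).comp ((aeval (uu p r D) : L[X] →ₐ[L] BQ p r D) : L[X] →+* BQ p r D) =
      ((aeval (uu p r (φ D)) : M[X] →ₐ[M] BQ p r (φ D)) : M[X] →+* BQ p r (φ D)).comp (mapRingHom φ) := by
    apply Polynomial.ringHom_ext
    · intro a
      change bc p r φ D (φ D) rfl (aeval (uu p r D) (C a)) = aeval (uu p r (φ D)) ((C a).map φ)
      rw [aeval_C, map_C, aeval_C]
      refine Subtype.ext ?_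
      exact bF_alg p φ D (φ D) rfl a
    · change bc p r φ D (φ D) rfl (aeval (uu p r D) X) = aeval (uu p r (φ D)) ((X : L[X]).map φ)
      rw [aeval_X, map_X, aeval_X]
      refine Subtype.ext ?_
      rw [bc_val]
      change bF p φ D (φ D) rfl (XF p D ^ p) = XF p (φ D) ^ p
      rw [map_pow, bF_XF]
  exact congrArg (fun f => f g) (congrArg DFunLike.coe h1)

theorem bc_sgi {L : Type} [Field L] (φ : L →+* M) (D ζ : L) (hζ : ζ ^ p = 1) (h : (φ ζ) ^ p = 1) (i : ℕ)
    (b : BQ p r D) : bc p r φ D (φ D) rfl (sgi p r D ζ hζ i b) =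
      sgi p r (φ D) (φ ζ) h i (bc p r φ D (φ D) rfl b) := by
  have hζi : (ζ ^ i) ^ p = 1 := by rw [← pow_mul, mul_comm, pow_mul, hζ, one_pow]
  have hφi : ((φ ζ) ^ i) ^ p = 1 := by rw [← pow_mul, mul_comm, pow_mul, h, one_pow]
  have h1 : (bF p φ D (φ D) rfl).comp (sF p D (ζ ^ i) hζi : RF p D →+* RF p D) =
      (sF p (φ D) ((φ ζ) ^ i) hφi : RF p (φ D) →+* RF p (φ D)).comp (bF p φ D (φ D) rfl) := by
    apply AdjoinRoot.ringHom_ext
    · apply RingHom.ext
      intro g
      change bF p φ D (φ D) rfl (sF p D (ζ ^ i) hζi (AdjoinRoot.of (fF p D) g)) =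
        sF p (φ D) ((φ ζ) ^ i) hφi (bF p φ D (φ D) rfl (AdjoinRoot.of (fF p D) g))
      rw [sF_of, bF_of, sF_of]
    · change bF p φ D (φ D) rfl (sF p D (ζ ^ i) hζi (YF p D)) =
        sF p (φ D) ((φ ζ) ^ i) hφi (bF p φ D (φ D) rfl (YF p D))
      rw [sF_YF, bF_YF, sF_YF, map_mul, bF_YF, bF_alg, map_pow]
  refine Subtype.ext ?_
  exact congrArg (fun f => f (b : RF p D)) (congrArg DFunLike.coe h1)

end

theorem clos (hRS : Pool.Agent.Q7.CJ.S_RS) (_ : S_BSC) (hDED : S_DED) (_ : S_MV) (hBC : S_BC) (hNI : S_NI)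
    (hH90 : S_H90) : S_CLOS := by
  intro p r _ _ L _ _ ζ hζ D hD I hI
  have hp := (Fact.out (p := p.Prime))
  obtain ⟨g, hg, hprod, _, _⟩ := hNI p r L ζ hζ.pow_eq_one hζ D hD I hI
  obtain ⟨M, iM, iA, hfd, hgal, s, hs, hroots⟩ := exists_field L p hp.pos (-D) g hg
  refine ⟨M, iM, iA, hfd, hgal, ?_⟩
  intro h
  set φ : L →+* M := algebraMap L M with hφ
  have : CharZero M := charZero_of_injective_algebraMap φ.injective
  have hζM : IsPrimitiveRoot (φ ζ) p := hζ.map_of_injective φ.injective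
  have hDM : φ D ≠ 0 := (map_ne_zero φ).2 hD
  have := (hDED p r M (φ D) hDM).1
  have hroots' : ∀ y ∈ s, (∃ a : M, a ^ p = y) ∧ ∃ b : M, b ^ p = y + -(φ D) := by
    intro y hy
    have h1 := hroots y hy
    rw [map_neg] at h1
    exact h1
  have hNr := nr_prod p r hRS hζM s hroots'
  obtain ⟨a, ha0, b, hb⟩ := norm_repr p r (φ D) (φ ζ) h hζM _ hNr
  rw [← hs] at hb
  set IM : Ideal (BQ p r (φ D)) := I.map (bc p r φ D (φ D) rfl) with hIM
  have hIM0 : IM ≠ ⊥ := ((hBC p r L M φ D (φ D) rfl hD).2 I hI).1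
  have hinj := aeval_inj p r (φ D)
  have hof0 : aeval (uu p r (φ D)) a ≠ 0 := by
    intro e
    apply ha0
    apply hinj
    rw [e, map_zero]
  have hg0 : aeval (uu p r (φ D)) (g.map φ) ≠ 0 := by
    intro e
    apply (hg.map φ).ne_zero
    apply hinj
    rw [e, map_zero]
  -- the norm of `b` is not zero
  have hb0 : b ≠ 0 := by
    rintro rfl
    have h2 : ∏ i ∈ Finset.range p, sgi p r (φ D) (φ ζ) h i (0 : BQ p r (φ D)) = 0 := by
      apply Finset.prod_eq_zero (Finset.mem_range.2 hp.pos)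
      exact map_zero _
    rw [h2, map_mul, map_pow] at hb
    exact (mul_ne_zero (pow_ne_zero p hof0) hg0) hb.symm
  -- the norm of `I` over `M`
  have hNM : ∏ i ∈ Finset.range p, IM.map (sgi p r (φ D) (φ ζ) h i) =
      Ideal.span {aeval (uu p r (φ D)) (g.map φ)} := by
    have h3 := congrArg (Ideal.map (bc p r φ D (φ D) rfl)) hprod
    rw [Ideal.map_span, Set.image_singleton, bc_aeval] at h3
    rw [← h3]
    have h4 : Ideal.map (bc p r φ D (φ D) rfl) (∏ i ∈ Finset.range p, I.map (sgi p r D ζ hζ.pow_eq_one i)) =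
        ∏ i ∈ Finset.range p, Ideal.map (bc p r φ D (φ D) rfl) (I.map (sgi p r D ζ hζ.pow_eq_one i)) := by
      exact map_prod (Ideal.mapHom (bc p r φ D (φ D) rfl)) _ _
    rw [h4]
    apply Finset.prod_congr rfl
    intro i _
    rw [hIM, Ideal.map_map, Ideal.map_map]
    congr 1
    apply RingHom.ext
    intro x
    exact (bc_sgi p r φ D ζ hζ.pow_eq_one h i x).symm
  -- the two ideals
  have hI' : Ideal.span {aeval (uu p r (φ D)) a} * IM ≠ ⊥ := by
    rw [Ne, ← Ideal.zero_eq_bot, mul_eq_zero, Ideal.zero_eq_bot, not_or]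
    exact ⟨by rwa [Ideal.span_singleton_eq_bot], hIM0⟩
  have hJ' : Ideal.span {b} ≠ (⊥ : Ideal (BQ p r (φ D))) := by
    rwa [Ne, Ideal.span_singleton_eq_bot]
  have heq : ∏ i ∈ Finset.range p, (Ideal.span {aeval (uu p r (φ D)) a} * IM).map (sgi p r (φ D) (φ ζ) h i) =
      ∏ i ∈ Finset.range p, (Ideal.span {b}).map (sgi p r (φ D) (φ ζ) h i) := by
    have h5 : ∀ i ∈ Finset.range p,
        (Ideal.span {aeval (uu p r (φ D)) a} * IM).map (sgi p r (φ D) (φ ζ) h i) =
        Ideal.span {aeval (uu p r (φ D)) a} * IM.map (sgi p r (φ D) (φ ζ) h i) := by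
      intro i _
      rw [Ideal.map_mul, Ideal.map_span, Set.image_singleton]
      congr 3
      exact sg_aeval p r (φ D) _ _ a
    have h6 : ∀ i ∈ Finset.range p, (Ideal.span {b}).map (sgi p r (φ D) (φ ζ) h i) =
        Ideal.span {sgi p r (φ D) (φ ζ) h i b} := by
      intro i _
      rw [Ideal.map_span, Set.image_singleton]
    rw [Finset.prod_congr rfl h5, Finset.prod_congr rfl h6, Finset.prod_mul_distrib, Finset.prod_const,
      Finset.card_range, hNM, Ideal.prod_span_singleton, hb, Ideal.span_singleton_pow,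
      Ideal.span_singleton_mul_span_singleton, map_mul, map_pow]
  obtain ⟨J, hJ, hJeq⟩ := hH90 p r M (φ ζ) h hζM (φ D) hDM _ _ hI' hJ' heq
  refine ⟨J, hJ, aeval (uu p r (φ D)) a, b, hof0, hb0, ?_⟩
  rw [← mul_assoc]
  exact hJeq

end Pool.Agent.Q222.CF
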